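import Mathlib

namespace Pool.Agent.C4C6Sat

variable {F : Type*} [Field F] [CharP F 2] (θ : F ≃+* F)

/-- The vertex with first coordinate `t` related to `x`. -/
def nb (x : F × F × F) (t : F) : F × F × F :=
  (t, θ x.1 * t + θ.symm x.2.2, t ^ 2 * θ x.1 + θ x.2.1)

/-- The polarity relation. -/
def R (x y : F × F × F) : Prop := y = nb θ x y.1

theorem two0 : (2 : F) = 0 := CharTwo.two_eq_zero

variable {θ}

theorem symm_sq (hθ : ∀ a, θ (θ a) = a ^ 2) (a : F) : θ.symm (a ^ 2) = θ a := by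
  rw [← hθ, RingEquiv.symm_apply_apply]

theorem R_iff {x y : F × F × F} : R θ x y ↔ y.2.1 = θ x.1 * y.1 + θ.symm x.2.2 ∧
    y.2.2 = y.1 ^ 2 * θ x.1 + θ x.2.1 := by
  unfold R nb
  constructor
  · intro h
    constructor
    · rw [h]
    · rw [h]
  · intro h
    ext
    · rfl
    · exact h.1
    · exact h.2

theorem R_nb (x : F × F × F) (t : F) : R θ x (nb θ x t) := rfl

theorem R_symm (hθ : ∀ a, θ (θ a) = a ^ 2) {x y : F × F × F} (h : R θ x y) : R θ y x := by
  rw [R_iff] at h ⊢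
  obtain ⟨h1, h2⟩ := h
  have t0 := two0 (F := F)
  constructor
  · rw [h2, map_add, map_mul, symm_sq hθ, RingEquiv.symm_apply_apply, RingEquiv.symm_apply_apply]
    grind
  · rw [h1, map_add, map_mul, hθ, RingEquiv.apply_symm_apply]
    grind

/-- Two vertices related to a common vertex. -/
theorem diff {x x' y : F × F × F} (h : R θ x y) (h' : R θ x' y) :
    θ (x.1 + x'.1) * y.1 = θ.symm (x.2.2 + x'.2.2) ∧
    θ (x.1 + x'.1) * y.1 ^ 2 = θ (x.2.1 + x'.2.1) := by
  rw [R_iff] at h h'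
  have t0 := two0 (F := F)
  rw [map_add, map_add, map_add]
  constructor <;> grind

theorem eq_of_fst {x x' y : F × F × F} (h : R θ x y) (h' : R θ x' y) (e : x.1 = x'.1) :
    x = x' := by
  obtain ⟨d1, d2⟩ := diff h h'
  have t0 := two0 (F := F)
  have e0 : x.1 + x'.1 = 0 := by rw [e]; grind
  rw [e0, map_zero, zero_mul] at d1 d2
  have e1 : x.2.2 + x'.2.2 = 0 := by
    apply θ.symm.injective; rw [← d1, map_zero]
  have e2 : x.2.1 + x'.2.1 = 0 := by
    apply θ.injective; rw [← d2, map_zero]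
  ext
  · exact e
  · grind
  · grind

/-- At most one common related vertex (`C₄`-freeness). -/
theorem c4 {x x' y y' : F × F × F} (hx : x ≠ x') (h1 : R θ x y) (h2 : R θ x' y)
    (h3 : R θ x y') (h4 : R θ x' y') : y = y' := by
  have d := (diff h1 h2).1
  have d' := (diff h3 h4).1
  rw [← d'] at d
  have hne : θ (x.1 + x'.1) ≠ 0 := by
    intro h0
    apply hx
    apply eq_of_fst h1 h2
    have : x.1 + x'.1 = 0 := by apply θ.injective; rw [h0, map_zero]
    have t0 := two0 (F := F)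
    grind
  have e : y.1 = y'.1 := mul_left_cancel₀ hne d
  rw [h1, h3, e]

/-- `C₆`-freeness. -/
theorem c6 {x y z u v w : F × F × F} (h1 : R θ x u) (h2 : R θ y u) (h3 : R θ y v)
    (h4 : R θ z v) (h5 : R θ z w) (h6 : R θ x w) (hyz : y ≠ z) (hvw : v ≠ w) (huv : u ≠ v) :
    False := by
  have t0 := two0 (F := F)
  obtain ⟨a1, a2⟩ := diff h1 h2
  obtain ⟨b1, b2⟩ := diff h3 h4
  obtain ⟨c1, c2⟩ := diff h5 h6
  have hD : θ (y.1 + z.1) ≠ 0 := by
    intro h0
    apply hyz
    apply eq_of_fst h3 h4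
    have : y.1 + z.1 = 0 := by apply θ.injective; rw [h0, map_zero]
    grind
  have huv1 : u.1 ≠ v.1 := fun e => huv (by rw [h2, h3, e])
  have hvw1 : v.1 ≠ w.1 := fun e => hvw (by rw [h4, h5, e])
  rw [map_add, map_add] at a1 a2 b1 b2 c1 c2
  rw [map_add] at hD
  have k1 : v.1 + w.1 ≠ 0 := by intro h; apply hvw1; grind
  have k2 : u.1 + v.1 ≠ 0 := by intro h; apply huv1; grind
  have key : (θ y.1 + θ z.1) * ((v.1 + w.1) * (u.1 + v.1)) = 0 := by
    grind
  rcases mul_eq_zero.mp key with h | h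
  · exact hD h
  · rcases mul_eq_zero.mp h with h | h
    · exact k1 h
    · exact k2 h

end Pool.Agent.C4C6Sat
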