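import Pool.Agent.C4C6Sat.Paths

namespace Pool.Agent.C4C6Sat

/-- Counting colourings in which no member of a disjoint family of 4-sets is monochromatic of
colour `i`. -/
theorem count_bad {V : Type*} [Fintype V] [DecidableEq V] (m : ℕ) (i : Fin m)
    (𝒯 : Finset (Finset V)) :
    (∀ S ∈ 𝒯, ∀ T ∈ 𝒯, S ≠ T → Disjoint S T) → (∀ T ∈ 𝒯, T.card = 4) →
    (Finset.univ.filter (fun f : V → Fin m => ∀ T ∈ 𝒯, ∃ v ∈ T, f v ≠ i)).card *
      (m ^ 4) ^ 𝒯.card ≤ (m ^ 4 - 1) ^ 𝒯.card * m ^ (Fintype.card V) := by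
  induction 𝒯 using Finset.induction_on with
  | empty =>
    intro _ _
    simp
  | insert T0 𝒯' hT0 ih =>
    intro hd h4
    have ih' := ih (fun S hS T hT => hd S (Finset.mem_insert_of_mem hS) T
      (Finset.mem_insert_of_mem hT)) (fun T hT => h4 T (Finset.mem_insert_of_mem hT))
    obtain ⟨S0, hS0⟩ : ∃ S0, S0 = Finset.univ.filter
      (fun f : V → Fin m => ∀ T ∈ 𝒯', ∃ v ∈ T, f v ≠ i) := ⟨_, rfl⟩
    obtain ⟨S1, hS1⟩ : ∃ S1, S1 = Finset.univ.filter
      (fun f : V → Fin m => ∀ T ∈ insert T0 𝒯', ∃ v ∈ T, f v ≠ i) := ⟨_, rfl⟩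
    obtain ⟨N, hN⟩ : ∃ N, N = S0.filter (fun f => ∀ v ∈ T0, f v = i) := ⟨_, rfl⟩
    rw [← hS0] at ih'
    rw [← hS1]
    have e1 : S1.card + N.card = S0.card := by
      rw [hN]
      have : S1 = S0.filter (fun f => ¬ ∀ v ∈ T0, f v = i) := by
        rw [hS1, hS0]
        ext f
        simp only [Finset.mem_filter, Finset.mem_univ, true_and, Finset.mem_insert,
          forall_eq_or_imp]
        constructor
        · rintro ⟨⟨v, hv, hv'⟩, h2⟩
          exact ⟨h2, fun h => hv' (h v hv)⟩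
        · rintro ⟨h2, h⟩
          push Not at h
          exact ⟨h, h2⟩
      rw [this, add_comm]
      exact Finset.card_filter_add_card_filter_not _
    have e2 : S0.card ≤ N.card * m ^ 4 := by
      have hcard : (N ×ˢ (Finset.univ : Finset (T0 → Fin m))).card = N.card * m ^ 4 := by
        rw [Finset.card_product, Finset.card_univ, Fintype.card_fun, Fintype.card_fin,
          Fintype.card_coe, h4 T0 (Finset.mem_insert_self _ _)]
      rw [← hcard]
      apply Finset.card_le_card_of_injOn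
        (fun f => ((fun v => if v ∈ T0 then i else f v), fun v : T0 => f v))
      · intro f hf
        rw [Finset.mem_coe, hS0, Finset.mem_filter] at hf
        rw [Finset.mem_coe, Finset.mem_product]
        refine ⟨?_, Finset.mem_univ _⟩
        rw [hN, hS0, Finset.mem_filter, Finset.mem_filter]
        refine ⟨⟨Finset.mem_univ _, ?_⟩, ?_⟩
        · intro T hT
          obtain ⟨v, hv, hv'⟩ := hf.2 T hT
          refine ⟨v, hv, ?_⟩
          have hdisj : Disjoint T0 T := hd T0 (Finset.mem_insert_self _ _) T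
            (Finset.mem_insert_of_mem hT) (fun h => hT0 (h ▸ hT))
          have : v ∉ T0 := fun h => (Finset.disjoint_left.mp hdisj) h hv
          simp only [this, if_false]
          exact hv'
        · intro v hv
          simp only [hv, if_true]
      · intro f _ g _ hfg
        have h1 := congrArg Prod.fst hfg
        have h2 := congrArg Prod.snd hfg
        funext v
        by_cases hv : v ∈ T0
        · exact congrFun h2 ⟨v, hv⟩
        · have := congrFun h1 v
          simpa only [hv, if_false] using this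
    rw [Finset.card_insert_of_notMem hT0]
    have hm : 0 < m := i.pos
    have hm4 : 1 ≤ m ^ 4 := Nat.one_le_pow _ _ hm
    have e3 : S1.card * m ^ 4 ≤ (m ^ 4 - 1) * S0.card := by
      obtain ⟨M, hM⟩ : ∃ M, m ^ 4 = M + 1 := ⟨m ^ 4 - 1, by omega⟩
      rw [hM] at e2 ⊢
      simp only [Nat.add_sub_cancel]
      nlinarith
    calc S1.card * (m ^ 4) ^ (𝒯'.card + 1) = (S1.card * m ^ 4) * (m ^ 4) ^ 𝒯'.card := by ring
      _ ≤ ((m ^ 4 - 1) * S0.card) * (m ^ 4) ^ 𝒯'.card := Nat.mul_le_mul_right _ e3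
      _ = (m ^ 4 - 1) * (S0.card * (m ^ 4) ^ 𝒯'.card) := by ring
      _ ≤ (m ^ 4 - 1) * ((m ^ 4 - 1) ^ 𝒯'.card * m ^ (Fintype.card V)) :=
        Nat.mul_le_mul_left _ ih'
      _ = (m ^ 4 - 1) ^ (𝒯'.card + 1) * m ^ (Fintype.card V) := by ring

variable {F : Type*} [Field F] [CharP F 2] {θ : F ≃+* F}

/-- `T` is the set of the four inner vertices of a path of length five from `x` to `y`. -/
def PathSet [DecidableEq F] (θ : F ≃+* F) (x y : F × F × F) (T : Finset (F × F × F)) : Prop :=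
  ∃ v1 v2 v3 v4, R θ x v1 ∧ R θ v1 v2 ∧ R θ v2 v3 ∧ R θ v3 v4 ∧ R θ v4 y ∧
      [x, v1, v2, v3, v4, y].Nodup ∧ T = {v1, v2, v3, v4}

theorem PathSet.card [DecidableEq F] {x y : F × F × F} {T : Finset (F × F × F)}
    (h : PathSet θ x y T) : T.card = 4 := by
  obtain ⟨v1, v2, v3, v4, -, -, -, -, -, hn, rfl⟩ := h
  simp only [List.nodup_cons, List.mem_cons, List.not_mem_nil, or_false, not_or,
    not_false_eq_true, List.nodup_nil, and_true] at hn
  obtain ⟨-, ⟨h12, h13, h14, -⟩, ⟨h23, h24, -⟩, ⟨h34, -⟩, -⟩ := hn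
  rw [Finset.card_insert_of_notMem (by simp [h12, h13, h14]),
    Finset.card_insert_of_notMem (by simp [h23, h24]),
    Finset.card_insert_of_notMem (by simp [h34]), Finset.card_singleton]

theorem family [Fintype F] [DecidableEq F] (hθ : ∀ a, θ (θ a) = a ^ 2) {x y : F × F × F}
    (hxy : x ≠ y) (hR : ¬ R θ x y) (k : ℕ) : 12 * k ≤ Fintype.card F →
    ∃ 𝒯 : Finset (Finset (F × F × F)), 𝒯.card = k ∧ (∀ T ∈ 𝒯, PathSet θ x y T) ∧
      (∀ S ∈ 𝒯, ∀ T ∈ 𝒯, S ≠ T → Disjoint S T) := by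
  induction k with
  | zero => intro _; exact ⟨∅, rfl, by simp, by simp⟩
  | succ k ih =>
    intro hk
    obtain ⟨𝒯, h1, h2, h3⟩ := ih (by omega)
    have hW : (𝒯.biUnion id).card ≤ 4 * k := by
      have := Finset.card_biUnion_le_card_mul 𝒯 id 4 (fun T hT => ((h2 T hT).card).le)
      rw [h1] at this
      omega
    obtain ⟨v1, v2, v3, v4, r1, r2, r3, r4, r5, hn, w1, w2, w3, w4⟩ :=
      exists_path hθ hxy hR (𝒯.biUnion id) (by omega)
    have hP : PathSet θ x y {v1, v2, v3, v4} := ⟨v1, v2, v3, v4, r1, r2, r3, r4, r5, hn, rfl⟩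
    have hdis : ∀ T ∈ 𝒯, Disjoint ({v1, v2, v3, v4} : Finset (F × F × F)) T := by
      intro T hT
      rw [Finset.disjoint_left]
      intro v hv hvT
      have : v ∈ 𝒯.biUnion id := Finset.mem_biUnion.mpr ⟨T, hT, hvT⟩
      simp only [Finset.mem_insert, Finset.mem_singleton] at hv
      rcases hv with rfl | rfl | rfl | rfl
      · exact w1 this
      · exact w2 this
      · exact w3 this
      · exact w4 this
    have hnot : ({v1, v2, v3, v4} : Finset (F × F × F)) ∉ 𝒯 := by
      intro h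
      have := hdis _ h
      rw [disjoint_self] at this
      have hc := hP.card
      rw [this] at hc
      simp at hc
    refine ⟨insert {v1, v2, v3, v4} 𝒯, ?_, ?_, ?_⟩
    · rw [Finset.card_insert_of_notMem hnot, h1]
    · intro T hT
      rcases Finset.mem_insert.mp hT with rfl | hT
      · exact hP
      · exact h2 T hT
    · intro S hS T hT hne
      rcases Finset.mem_insert.mp hS with rfl | hS
      · rcases Finset.mem_insert.mp hT with rfl | hT
        · exact absurd rfl hne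
        · exact hdis T hT
      · rcases Finset.mem_insert.mp hT with rfl | hT
        · exact (hdis S hS).symm
        · exact h3 S hS T hT hne

open Classical in
theorem coloring [Fintype F] (hθ : ∀ a, θ (θ a) = a ^ 2) (m k : ℕ) (hm : 0 < m)
    (hk : 12 * k ≤ Fintype.card F)
    (hcount : (Fintype.card (F × F × F)) ^ 2 * m * (m ^ 4 - 1) ^ k < (m ^ 4) ^ k) :
    ∃ f : F × F × F → Fin m, ∀ x y, x ≠ y → ¬ R θ x y → ∀ i, ∃ T, PathSet θ x y T ∧
      ∀ v ∈ T, f v = i := by
  by_contra hcon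
  push Not at hcon
  have hfam : ∀ p : (F × F × F) × (F × F × F), ∃ 𝒯 : Finset (Finset (F × F × F)),
      (p.1 ≠ p.2 → ¬ R θ p.1 p.2 → 𝒯.card = k ∧ (∀ T ∈ 𝒯, PathSet θ p.1 p.2 T) ∧
      (∀ S ∈ 𝒯, ∀ T ∈ 𝒯, S ≠ T → Disjoint S T)) := by
    intro p
    by_cases h1 : p.1 ≠ p.2
    · by_cases h2 : ¬ R θ p.1 p.2
      · obtain ⟨𝒯, h⟩ := family hθ h1 h2 k hk
        exact ⟨𝒯, fun _ _ => h⟩
      · exact ⟨∅, fun _ h => absurd h h2⟩
    · exact ⟨∅, fun h => absurd h h1⟩
  choose 𝒯 h𝒯 using hfam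
  obtain ⟨B, hB⟩ : ∃ B : ((F × F × F) × (F × F × F)) × Fin m → Finset (F × F × F → Fin m),
      B = fun p => if p.1.1 ≠ p.1.2 ∧ ¬ R θ p.1.1 p.1.2 then
        Finset.univ.filter (fun f => ∀ T ∈ 𝒯 p.1, ∃ v ∈ T, f v ≠ p.2) else ∅ := ⟨_, rfl⟩
  have hcov : (Finset.univ : Finset (F × F × F → Fin m)) ⊆ Finset.univ.biUnion B := by
    intro f _
    obtain ⟨x, y, hxy, hR, i, hi⟩ := hcon f
    rw [Finset.mem_biUnion]
    refine ⟨((x, y), i), Finset.mem_univ _, ?_⟩
    rw [hB]
    simp only [hxy, hR, ne_eq, not_false_eq_true, and_self, if_true, Finset.mem_filter,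
      Finset.mem_univ, true_and]
    intro T hT
    exact hi T ((h𝒯 (x, y) hxy hR).2.1 T hT)
  have hb : ∀ p, (B p).card * (m ^ 4) ^ k ≤ (m ^ 4 - 1) ^ k * m ^ (Fintype.card (F × F × F)) := by
    intro p
    rw [hB]
    dsimp only
    split_ifs with h
    · obtain ⟨t1, t2, t3⟩ := h𝒯 p.1 h.1 h.2
      have := count_bad m p.2 (𝒯 p.1) t3 (fun T hT => (t2 T hT).card)
      rw [t1] at this
      exact this
    · simp
  have h1 := Finset.card_le_card hcov
  rw [Finset.card_univ, Fintype.card_fun, Fintype.card_fin] at h1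
  have h2 := h1.trans Finset.card_biUnion_le
  have hpos : 0 < m ^ (Fintype.card (F × F × F)) := Nat.pow_pos hm
  have hcardI : Fintype.card (((F × F × F) × (F × F × F)) × Fin m) =
      Fintype.card (F × F × F) ^ 2 * m := by
    rw [Fintype.card_prod, Fintype.card_prod (F × F × F) (F × F × F), Fintype.card_fin, sq]
  generalize m ^ (Fintype.card (F × F × F)) = P at hb h2 hpos
  generalize (m ^ 4) ^ k = Q at hb hcount
  generalize (m ^ 4 - 1) ^ k = D at hb hcount
  have h3 : (∑ p, (B p).card) * Q ≤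
      (Fintype.card (((F × F × F) × (F × F × F)) × Fin m)) * (D * P) := by
    rw [Finset.sum_mul, ← Finset.card_univ, ← smul_eq_mul (α := ℕ)]
    exact Finset.sum_le_card_nsmul _ _ _ (fun p _ => hb p)
  rw [hcardI] at h3
  generalize Fintype.card (F × F × F) ^ 2 * m = Z at h3 hcount
  have h4 : P * Q ≤ P * (Z * D) := by
    calc P * Q ≤ (∑ p, (B p).card) * Q := Nat.mul_le_mul_right _ h2
      _ ≤ Z * (D * P) := h3
      _ = P * (Z * D) := by ring
  have h5 := Nat.le_of_mul_le_mul_left h4 hpos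
  omega

end Pool.Agent.C4C6Sat
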