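import Pool.Agent.C4C6Sat.Algebra

namespace Pool.Agent.C4C6Sat

variable {F : Type*} [Field F] [CharP F 2] {θ : F ≃+* F}

theorem walk3 (hθ : ∀ a, θ (θ a) = a ^ 2) {p w : F × F × F} {k e E T : F}
    (hk : k = p.1 * θ w.1 + p.2.1 + θ.symm w.2.2)
    (he : e = p.1 ^ 2 * θ w.1 + p.2.2 + θ w.2.1) (h1 : E * T = k) (h2 : E ^ 2 * T = e) :
    R θ (nb θ p (w.1 + θ.symm T)) (nb θ w (p.1 + E)) := by
  have t0 := two0 (F := F)
  rw [R_iff]
  simp only [nb]
  constructor
  · simp only [map_add, RingEquiv.apply_symm_apply, map_mul, symm_sq hθ,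
      RingEquiv.symm_apply_apply]
    grind
  · simp only [map_add, RingEquiv.apply_symm_apply, map_mul, hθ]
    grind

theorem kappa (hθ : ∀ a, θ (θ a) = a ^ 2) (x y : F × F × F) (α β : F) :
    (nb θ x α).1 * θ (nb θ y β).1 + (nb θ x α).2.1 + θ.symm (nb θ y β).2.2 =
      (α + y.1) * θ (β + x.1) + (y.2.1 + θ.symm x.2.2 + θ x.1 * y.1) := by
  have t0 := two0 (F := F)
  simp only [nb, map_add, map_mul, symm_sq hθ, RingEquiv.symm_apply_apply]
  grind

theorem eta (hθ : ∀ a, θ (θ a) = a ^ 2) (x y : F × F × F) (α β : F) :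
    (nb θ x α).1 ^ 2 * θ (nb θ y β).1 + (nb θ x α).2.2 + θ (nb θ y β).2.1 =
      (α + y.1) ^ 2 * θ (β + x.1) + (y.2.2 + θ x.2.1 + y.1 ^ 2 * θ x.1) := by
  have t0 := two0 (F := F)
  simp only [nb, map_add, map_mul, hθ, RingEquiv.apply_symm_apply]
  grind

/-- Each vertex has at most one absolute neighbour. -/
theorem abs_unique (hθ : ∀ a, θ (θ a) = a ^ 2) {x z z' : F × F × F} (h1 : R θ x z)
    (h2 : R θ z z) (h3 : R θ x z') (h4 : R θ z' z') : z = z' := by
  have t0 := two0 (F := F)
  have key : ∀ z : F × F × F, R θ x z → R θ z z →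
      (z.1 + x.1) * θ (z.1 + x.1) = x.2.1 + θ.symm x.2.2 + x.1 * θ x.1 := by
    intro z h1 h2
    have e1 := (R_iff.mp h1).1
    have e2 := (R_iff.mp h1).2
    have e3 := (R_iff.mp h2).1
    rw [e2, map_add, map_mul, symm_sq hθ, RingEquiv.symm_apply_apply,
      RingEquiv.symm_apply_apply, e1] at e3
    rw [map_add]
    grind
  have k1 := key z h1 h2
  have k2 := key z' h3 h4
  obtain ⟨g, hg⟩ : ∃ g, g = x.2.1 + θ.symm x.2.2 + x.1 * θ x.1 := ⟨_, rfl⟩
  rw [← hg] at k1 k2
  have e1 : (z.1 + x.1) * g = θ g := by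
    rw [← k1, map_mul, hθ]; ring
  have e2 : (z'.1 + x.1) * g = θ g := by
    rw [← k2, map_mul, hθ]; ring
  have hz : z.1 = z'.1 := by
    by_cases hg0 : g = 0
    · rw [hg0] at k1 k2
      have a1 : z.1 + x.1 = 0 := by
        rcases mul_eq_zero.mp k1 with h | h
        · exact h
        · apply θ.injective; rw [h, map_zero]
      have a2 : z'.1 + x.1 = 0 := by
        rcases mul_eq_zero.mp k2 with h | h
        · exact h
        · apply θ.injective; rw [h, map_zero]
      exact add_right_cancel (a1.trans a2.symm)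
    · have := mul_right_cancel₀ hg0 (e1.trans e2.symm)
      exact add_right_cancel this
  rw [h1, h3, hz]

open Classical in
theorem exists_path [Fintype F] (hθ : ∀ a, θ (θ a) = a ^ 2) {x y : F × F × F} (hxy : x ≠ y)
    (hR : ¬ R θ x y) (W : Finset (F × F × F)) (hW : 3 * W.card + 9 ≤ Fintype.card F) :
    ∃ v1 v2 v3 v4, R θ x v1 ∧ R θ v1 v2 ∧ R θ v2 v3 ∧ R θ v3 v4 ∧ R θ v4 y ∧
      [x, v1, v2, v3, v4, y].Nodup ∧ v1 ∉ W ∧ v2 ∉ W ∧ v3 ∉ W ∧ v4 ∉ W := by
  have t0 := two0 (F := F)
  obtain ⟨ρ, hρ⟩ : ∃ ρ, ρ = y.2.1 + θ.symm x.2.2 + θ x.1 * y.1 := ⟨_, rfl⟩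
  obtain ⟨σ, hσ⟩ : ∃ σ, σ = y.2.2 + θ x.2.1 + y.1 ^ 2 * θ x.1 := ⟨_, rfl⟩
  have hρσ : ρ ≠ 0 ∨ σ ≠ 0 := by
    by_contra hcon
    push Not at hcon
    obtain ⟨h1, h2⟩ := hcon
    apply hR
    rw [R_iff]
    rw [h1] at hρ
    rw [h2] at hσ
    constructor <;> grind
  -- common neighbours and absolute neighbours
  obtain ⟨C, hC⟩ : ∃ C : Finset (F × F × F), C = Finset.univ.filter
    (fun z => R θ x z ∧ R θ y z) := ⟨_, rfl⟩
  have hC1 : C.card ≤ 1 := by
    rw [Finset.card_le_one]
    intro a ha b hb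
    rw [hC, Finset.mem_filter] at ha hb
    exact c4 hxy ha.2.1 ha.2.2 hb.2.1 hb.2.2
  obtain ⟨Ab, hAb⟩ : ∃ Ab : F × F × F → Finset (F × F × F), Ab = fun p => Finset.univ.filter
    (fun z => R θ p z ∧ R θ z z) := ⟨_, rfl⟩
  have hAb1 : ∀ p, (Ab p).card ≤ 1 := by
    intro p
    rw [Finset.card_le_one]
    intro a ha b hb
    rw [hAb] at ha hb
    simp only [Finset.mem_filter, Finset.mem_univ, true_and] at ha hb
    exact abs_unique hθ ha.1 ha.2 hb.1 hb.2
  have memC : ∀ z, R θ x z → R θ y z → z ∈ C := fun z h1 h2 => by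
    rw [hC]; simp [h1, h2]
  have memAb : ∀ p z, R θ p z → R θ z z → z ∈ Ab p := fun p z h1 h2 => by
    rw [hAb]; simp [h1, h2]
  -- choice of `α`
  obtain ⟨α, hα1, hα2, hα3⟩ : ∃ α : F, nb θ x α ∉ W ∪ {x} ∪ C ∪ Ab x ∧ α ≠ y.1 ∧
      (α + y.1) * ρ ≠ σ := by
    have c1 : (Finset.univ.filter (fun α : F => nb θ x α ∈ W ∪ {x} ∪ C ∪ Ab x)).card ≤
        W.card + 3 := by
      calc _ ≤ (W ∪ {x} ∪ C ∪ Ab x).card := by
            apply Finset.card_le_card_of_injOn (fun α => nb θ x α)
            · intro a ha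
              simpa using ha
            · intro a _ b _ hab
              exact congrArg Prod.fst hab
        _ ≤ W.card + 3 := by
            have h1 := Finset.card_union_le (W ∪ {x} ∪ C) (Ab x)
            have h2 := Finset.card_union_le (W ∪ {x}) C
            have h3 := Finset.card_union_le W {x}
            have h4 := hAb1 x
            rw [Finset.card_singleton] at h3
            omega
    have c2 : (Finset.univ.filter (fun α : F => (α + y.1) * ρ = σ)).card ≤ 1 := by
      rw [Finset.card_le_one]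
      intro a ha b hb
      simp only [Finset.mem_filter, Finset.mem_univ, true_and] at ha hb
      by_cases h0 : ρ = 0
      · rw [h0, mul_zero] at ha
        rcases hρσ with h | h
        · exact absurd h0 h
        · exact absurd ha.symm h
      · exact add_right_cancel (mul_right_cancel₀ h0 (ha.trans hb.symm))
    by_contra hcon
    push Not at hcon
    have hcov : (Finset.univ : Finset F) ⊆
        (Finset.univ.filter (fun α : F => nb θ x α ∈ W ∪ {x} ∪ C ∪ Ab x)) ∪ {y.1} ∪
        (Finset.univ.filter (fun α : F => (α + y.1) * ρ = σ)) := by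
      intro a _
      simp only [Finset.mem_union, Finset.mem_filter, Finset.mem_univ, true_and,
        Finset.mem_singleton]
      by_cases h1 : nb θ x a ∈ W ∪ {x} ∪ C ∪ Ab x
      · left; left; simpa only [Finset.mem_union, Finset.mem_singleton] using h1
      · by_cases h2 : a = y.1
        · left; right; exact h2
        · right; exact hcon a h1 h2
    have h1 := Finset.card_le_card hcov
    have h2 := Finset.card_union_le ((Finset.univ.filter
      (fun α : F => nb θ x α ∈ W ∪ {x} ∪ C ∪ Ab x)) ∪ {y.1})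
      (Finset.univ.filter (fun α : F => (α + y.1) * ρ = σ))
    have h3 := Finset.card_union_le (Finset.univ.filter
      (fun α : F => nb θ x α ∈ W ∪ {x} ∪ C ∪ Ab x)) {y.1}
    rw [Finset.card_singleton] at h3
    rw [Finset.card_univ] at h1
    omega
  simp only [Finset.mem_union, Finset.mem_singleton, not_or] at hα1
  obtain ⟨⟨⟨hαW, hαx⟩, hαC⟩, hαAb⟩ := hα1
  obtain ⟨v1, hv1⟩ : ∃ v1, v1 = nb θ x α := ⟨_, rfl⟩
  rw [← hv1] at hαW hαx hαC hαAb
  have Rx1 : R θ x v1 := by rw [hv1]; exact R_nb _ _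
  obtain ⟨A, hA⟩ : ∃ A, A = α + y.1 := ⟨_, rfl⟩
  have hA0 : A ≠ 0 := by
    intro h; apply hα2; rw [hA] at h; grind
  rw [← hA] at hα3
  -- the functions of `β`
  obtain ⟨K, hK⟩ : ∃ K : F → F, K = fun β => A * θ (β + x.1) + ρ := ⟨_, rfl⟩
  obtain ⟨H, hH⟩ : ∃ H : F → F, H = fun β => A ^ 2 * θ (β + x.1) + σ := ⟨_, rfl⟩
  obtain ⟨f2, hf2⟩ : ∃ f2 : F → F × F × F, f2 = fun β =>
    nb θ v1 (β + θ.symm (K β ^ 2 / H β)) := ⟨_, rfl⟩
  obtain ⟨f3, hf3⟩ : ∃ f3 : F → F × F × F, f3 = fun β =>
    nb θ (nb θ y β) (α + H β / K β) := ⟨_, rfl⟩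
  obtain ⟨G, hG⟩ : ∃ G : Finset F, G = Finset.univ.filter
    (fun β => K β ≠ 0 ∧ H β ≠ 0 ∧ θ (β + x.1) * σ ≠ ρ ^ 2) := ⟨_, rfl⟩
  have hθinj : ∀ a b : F, θ (a + x.1) = θ (b + x.1) → a = b := fun a b h =>
    add_right_cancel (θ.injective h)
  have hGcard : Fintype.card F ≤ G.card + 3 := by
    have d1 : (Finset.univ.filter (fun β : F => K β = 0)).card ≤ 1 := by
      rw [Finset.card_le_one]
      intro a ha b hb
      simp only [Finset.mem_filter, Finset.mem_univ, true_and, hK] at ha hb
      exact hθinj a b (mul_left_cancel₀ hA0 (add_right_cancel (ha.trans hb.symm)))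
    have d2 : (Finset.univ.filter (fun β : F => H β = 0)).card ≤ 1 := by
      rw [Finset.card_le_one]
      intro a ha b hb
      simp only [Finset.mem_filter, Finset.mem_univ, true_and, hH] at ha hb
      exact hθinj a b (mul_left_cancel₀ (pow_ne_zero 2 hA0) (add_right_cancel (ha.trans hb.symm)))
    have d3 : (Finset.univ.filter (fun β : F => θ (β + x.1) * σ = ρ ^ 2)).card ≤ 1 := by
      rw [Finset.card_le_one]
      intro a ha b hb
      simp only [Finset.mem_filter, Finset.mem_univ, true_and] at ha hb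
      by_cases h0 : σ = 0
      · rw [h0, mul_zero] at ha
        rcases hρσ with h | h
        · exact absurd ha.symm (pow_ne_zero 2 h)
        · exact absurd h0 h
      · exact hθinj a b (mul_right_cancel₀ h0 (ha.trans hb.symm))
    have hcov : (Finset.univ : Finset F) ⊆ G ∪ (Finset.univ.filter (fun β : F => K β = 0)) ∪
        (Finset.univ.filter (fun β : F => H β = 0)) ∪
        (Finset.univ.filter (fun β : F => θ (β + x.1) * σ = ρ ^ 2)) := by
      intro a _
      simp only [Finset.mem_union, hG, Finset.mem_filter, Finset.mem_univ, true_and]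
      tauto
    have h1 := Finset.card_le_card hcov
    have h2 := Finset.card_union_le (G ∪ (Finset.univ.filter (fun β : F => K β = 0)) ∪
        (Finset.univ.filter (fun β : F => H β = 0)))
        (Finset.univ.filter (fun β : F => θ (β + x.1) * σ = ρ ^ 2))
    have h3 := Finset.card_union_le (G ∪ (Finset.univ.filter (fun β : F => K β = 0)))
        (Finset.univ.filter (fun β : F => H β = 0))
    have h4 := Finset.card_union_le G (Finset.univ.filter (fun β : F => K β = 0))
    rw [Finset.card_univ] at h1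
    omega
  -- facts on valid `β`
  have R4y : ∀ β, R θ (nb θ y β) y := fun β => R_symm hθ (R_nb _ _)
  have R12 : ∀ β, R θ v1 (f2 β) := fun β => by rw [hf2]; exact R_nb _ _
  have R34 : ∀ β, R θ (f3 β) (nb θ y β) := fun β => by rw [hf3]; exact R_symm hθ (R_nb _ _)
  have R23 : ∀ β ∈ G, R θ (f2 β) (f3 β) := by
    intro β hβ
    rw [hG, Finset.mem_filter] at hβ
    obtain ⟨-, g1, g2, g3⟩ := hβ
    have := walk3 hθ (p := nb θ x α) (w := nb θ y β) (k := K β) (e := H β) (E := H β / K β)
      (T := K β ^ 2 / H β) (by rw [kappa hθ, hK, hA, hρ]) (by rw [eta hθ, hH, hA, hσ])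
      (by field_simp) (by field_simp)
    rw [← hv1] at this
    rw [hf2, hf3]
    have e1 : v1.1 = α := by rw [hv1]; rfl
    rw [e1] at this
    exact this
  have f3ne : ∀ β ∈ G, f3 β ≠ y := by
    intro β hβ e
    rw [hG, Finset.mem_filter] at hβ
    obtain ⟨-, g1, g2, g3⟩ := hβ
    have e1 : α + H β / K β = y.1 := by
      have := congrArg Prod.fst e
      rw [hf3] at this
      exact this
    have e2 : H β / K β = A := by rw [hA]; grind
    rw [div_eq_iff g1] at e2
    apply hα3
    rw [hH, hK] at e2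
    grind
  have f2ne : ∀ β ∈ G, f2 β ≠ x := by
    intro β hβ e
    rw [hG, Finset.mem_filter] at hβ
    obtain ⟨-, g1, g2, g3⟩ := hβ
    have e1 : β + θ.symm (K β ^ 2 / H β) = x.1 := by
      have := congrArg Prod.fst e
      rw [hf2] at this
      exact this
    have e2 : θ.symm (K β ^ 2 / H β) = β + x.1 := by grind
    have e3 : K β ^ 2 / H β = θ (β + x.1) := by rw [← e2, RingEquiv.apply_symm_apply]
    rw [div_eq_iff g2] at e3
    apply g3
    rw [hH, hK] at e3
    grind
  have inj3 : ∀ a ∈ G, ∀ b ∈ G, f3 a = f3 b → a = b := by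
    intro a ha b hb hab
    have h1 := R34 a
    have h2 := R34 b
    rw [← hab] at h2
    have := c4 (f3ne a ha) h1 (R_nb y a) h2 (R_nb y b)
    exact congrArg Prod.fst this
  have inj2 : ∀ a ∈ G, ∀ b ∈ G, f2 a = f2 b → a = b := by
    intro a ha b hb hab
    by_contra hne
    have hne' : nb θ y a ≠ nb θ y b := fun h => hne (congrArg Prod.fst h)
    have r1 := R23 a ha
    have r2 := R23 b hb
    rw [← hab] at r2
    exact c6 r1 (R_symm hθ (R34 a)) (R4y a) (R4y b) (R_symm hθ (R34 b)) r2 hne'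
      (f3ne b hb).symm (f3ne a ha)
  -- choice of `β`
  obtain ⟨β, hβG, hβ4, hβ3, hβ2⟩ : ∃ β ∈ G, nb θ y β ∉ W ∪ {y} ∪ C ∪ Ab y ∧ f3 β ∉ W ∧
      f2 β ∉ W ∪ Ab v1 := by
    have c1 : (G.filter (fun β : F => nb θ y β ∈ W ∪ {y} ∪ C ∪ Ab y)).card ≤ W.card + 3 := by
      calc _ ≤ (W ∪ {y} ∪ C ∪ Ab y).card := by
            apply Finset.card_le_card_of_injOn (fun α => nb θ y α)
            · intro a ha
              simp only [Finset.coe_filter, Set.mem_ofPred_eq] at ha
              exact ha.2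
            · intro a _ b _ hab
              exact congrArg Prod.fst hab
        _ ≤ W.card + 3 := by
            have h1 := Finset.card_union_le (W ∪ {y} ∪ C) (Ab y)
            have h2 := Finset.card_union_le (W ∪ {y}) C
            have h3 := Finset.card_union_le W {y}
            have h4 := hAb1 y
            rw [Finset.card_singleton] at h3
            omega
    have c2 : (G.filter (fun β : F => f3 β ∈ W)).card ≤ W.card := by
      apply Finset.card_le_card_of_injOn f3
      · intro a ha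
        simp only [Finset.coe_filter, Set.mem_ofPred_eq] at ha
        exact ha.2
      · intro a ha b hb hab
        simp only [Finset.coe_filter, Set.mem_ofPred_eq] at ha hb
        exact inj3 a ha.1 b hb.1 hab
    have c3 : (G.filter (fun β : F => f2 β ∈ W ∪ Ab v1)).card ≤ W.card + 1 := by
      calc _ ≤ (W ∪ Ab v1).card := by
            apply Finset.card_le_card_of_injOn f2
            · intro a ha
              simp only [Finset.coe_filter, Set.mem_ofPred_eq] at ha
              exact ha.2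
            · intro a ha b hb hab
              simp only [Finset.coe_filter, Set.mem_ofPred_eq] at ha hb
              exact inj2 a ha.1 b hb.1 hab
        _ ≤ W.card + 1 := by
            have h1 := Finset.card_union_le W (Ab v1)
            have h2 := hAb1 v1
            omega
    by_contra hcon
    push Not at hcon
    have hcov : G ⊆ (G.filter (fun β : F => nb θ y β ∈ W ∪ {y} ∪ C ∪ Ab y)) ∪
        (G.filter (fun β : F => f3 β ∈ W)) ∪ (G.filter (fun β : F => f2 β ∈ W ∪ Ab v1)) := by
      intro a ha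
      rw [Finset.mem_union, Finset.mem_union, Finset.mem_filter, Finset.mem_filter,
        Finset.mem_filter]
      by_cases h1 : nb θ y a ∈ W ∪ {y} ∪ C ∪ Ab y
      · left; left; exact ⟨ha, h1⟩
      · by_cases h2 : f3 a ∈ W
        · left; right; exact ⟨ha, h2⟩
        · right; exact ⟨ha, hcon a ha h1 h2⟩
    have h1 := Finset.card_le_card hcov
    have h2 := Finset.card_union_le ((G.filter (fun β : F => nb θ y β ∈ W ∪ {y} ∪ C ∪ Ab y)) ∪
        (G.filter (fun β : F => f3 β ∈ W))) (G.filter (fun β : F => f2 β ∈ W ∪ Ab v1))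
    have h3 := Finset.card_union_le (G.filter (fun β : F => nb θ y β ∈ W ∪ {y} ∪ C ∪ Ab y))
        (G.filter (fun β : F => f3 β ∈ W))
    omega
  simp only [Finset.mem_union, Finset.mem_singleton, not_or] at hβ4 hβ2
  obtain ⟨⟨⟨hβW, hβy⟩, hβC⟩, hβAb⟩ := hβ4
  have hv2 := R12 β
  have hv3 := R23 β hβG
  have hv4 := R34 β
  refine ⟨v1, f2 β, f3 β, nb θ y β, Rx1, hv2, hv3, hv4, R4y β, ?_, hαW, hβ2.1, hβ3, hβW⟩
  have gg := hβG
  rw [hG, Finset.mem_filter] at gg
  obtain ⟨-, g1, g2, g3⟩ := gg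
  have n13 : v1 ≠ f3 β := by
    intro h
    have e1 : α = α + H β / K β := by
      have := congrArg Prod.fst h
      rw [hf3, hv1] at this
      exact this
    have : H β / K β = 0 := by
      have := e1.symm
      rwa [add_eq_left] at this
    rcases div_eq_zero_iff.mp this with h | h
    · exact g2 h
    · exact g1 h
  have n24 : f2 β ≠ nb θ y β := by
    intro h
    have e1 : β + θ.symm (K β ^ 2 / H β) = β := by
      have := congrArg Prod.fst h
      rw [hf2] at this
      exact this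
    rw [add_eq_left] at e1
    have e2 : K β ^ 2 / H β = 0 := by
      apply θ.symm.injective; rw [e1, map_zero]
    rcases div_eq_zero_iff.mp e2 with h | h
    · exact g1 (pow_eq_zero_iff (by norm_num) |>.mp h)
    · exact g2 h
  have nxv1 : x ≠ v1 := fun h => hαx h.symm
  have nxv2 : x ≠ f2 β := fun h => f2ne β hβG h.symm
  have nxv3 : x ≠ f3 β := fun h => hβC (memC _ (by rw [h]; exact hv4) (R_nb _ _))
  have nxv4 : x ≠ nb θ y β := fun h => hR (by rw [h]; exact R4y β)
  have n12 : v1 ≠ f2 β := fun h => hαAb (memAb _ _ Rx1 (by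
    have := hv2; rw [← h] at this; exact this))
  have n14 : v1 ≠ nb θ y β := fun h => hαC (memC _ Rx1 (by rw [h]; exact R_nb _ _))
  have n1y : v1 ≠ y := fun h => hR (by rw [← h]; exact Rx1)
  have n23 : f2 β ≠ f3 β := fun h => hβ2.2 (memAb _ _ hv2 (by
    have := hv3; rw [← h] at this; exact this))
  have n2y : f2 β ≠ y := fun h => hαC (memC _ Rx1 (by
    have := R_symm hθ hv2; rw [h] at this; exact this))
  have n34 : f3 β ≠ nb θ y β := fun h => hβAb (memAb _ _ (R_nb _ _) (by
    have := hv4; rw [h] at this; exact this))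
  have n3y : f3 β ≠ y := f3ne β hβG
  simp only [List.nodup_cons, List.mem_cons, List.not_mem_nil, or_false, not_or,
    not_false_eq_true, List.nodup_nil, and_true]
  exact ⟨⟨nxv1, nxv2, nxv3, nxv4, hxy⟩, ⟨n12, n13, n14, n1y⟩, ⟨n23, n24, n2y⟩, ⟨n34, n3y⟩, hβy⟩

end Pool.Agent.C4C6Sat
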